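import Mathlib

/-! Good simultaneous rational approximations of almost every real tuple avoid thin sets, also the integers near the
small linear combinations of their numerators and denominators. -/

set_option autoImplicit false

namespace Run7.h469.GA

open Finset MeasureTheory Filter
open scoped ENNReal

open Classical in
/-- The property `Q` has few exceptions. -/
def Thin (Q : ℕ → Prop) : Prop := ∀ A : ℕ, ∃ X₀ : ℕ, ∀ X : ℕ, X₀ ≤ X →
  (((Icc 1 X).filter (fun n => ¬ Q n)).card : ℝ) ≤ X / Real.log X ^ A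

/-- the number of the integer points in a box for which a linear form has values in a finite set -/
theorem count_lin {ι : Type} [Fintype ι] [DecidableEq ι] (a : ι → ℤ) (i₀ : ι) (ha : a i₀ ≠ 0) (w : ℤ) (R : ℕ)
    (E : Finset ℤ) :
    ((Fintype.piFinset (fun _ : ι => Icc (-(R : ℤ)) R)).filter (fun z => (∑ i, a i * z i) + w ∈ E)).card ≤
      E.card * (2 * R + 1) ^ (Fintype.card ι - 1) := by
  have h1 : ((Fintype.piFinset (fun _ : ι => Icc (-(R : ℤ)) R)).filter (fun z => (∑ i, a i * z i) + w ∈ E)).card ≤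
      (E ×ˢ Fintype.piFinset (fun _ : {i : ι // i ≠ i₀} => Icc (-(R : ℤ)) R)).card := by
    apply card_le_card_of_injOn (fun z => ((∑ i, a i * z i) + w, fun i => z i.1))
    · intro z hz
      rw [mem_coe, mem_filter, Fintype.mem_piFinset] at hz
      rw [mem_coe, mem_product, Fintype.mem_piFinset]
      exact ⟨hz.2, fun i => hz.1 i.1⟩
    · intro z hz z' hz' h
      simp only [Prod.mk.injEq] at h
      obtain ⟨h1, h2⟩ := h
      have h3 : ∀ i, i ≠ i₀ → z i = z' i := fun i hi => congrFun h2 ⟨i, hi⟩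
      have h4 : ∑ i, a i * z i = ∑ i, a i * z' i := by linarith
      rw [← Finset.add_sum_erase _ _ (mem_univ i₀), ← Finset.add_sum_erase _ _ (mem_univ i₀)] at h4
      have h5 : ∑ i ∈ univ.erase i₀, a i * z i = ∑ i ∈ univ.erase i₀, a i * z' i := by
        apply sum_congr rfl
        intro i hi
        rw [h3 i (ne_of_mem_erase hi)]
      rw [h5] at h4
      have h6 : a i₀ * z i₀ = a i₀ * z' i₀ := by linarith
      have h7 := mul_left_cancel₀ ha h6
      funext i
      by_cases hi : i = i₀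
      · rw [hi]; exact h7
      · exact h3 i hi
  refine h1.trans (le_of_eq ?_)
  rw [card_product, Fintype.card_piFinset, prod_const, Int.card_Icc, card_univ, Fintype.card_subtype_compl,
    Fintype.card_subtype_eq]
  congr 2
  omega

/-- the bad integer points of the scale `j`: some small linear form has an exceptional value -/
noncomputable def bad (Q : ℕ → Prop) (d H R : ℕ) : Finset (Option (Fin d) → ℤ) := by
  classical
  exact (Fintype.piFinset (fun _ : Option (Fin d) => Icc (-(R : ℤ)) R)).filter (fun z =>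
    ∃ a : Option (Fin d) → ℤ, ∃ w : ℤ, (∀ i, |a i| ≤ H) ∧ |w| ≤ H ∧ a ≠ 0 ∧ 0 < (∑ i, a i * z i) + w ∧
      ¬ Q ((∑ i, a i * z i) + w).toNat)

theorem mem_bad {Q : ℕ → Prop} {d H R : ℕ} {z : Option (Fin d) → ℤ} : z ∈ bad Q d H R ↔ (∀ i, |z i| ≤ R) ∧
    ∃ a : Option (Fin d) → ℤ, ∃ w : ℤ, (∀ i, |a i| ≤ H) ∧ |w| ≤ H ∧ a ≠ 0 ∧ 0 < (∑ i, a i * z i) + w ∧
      ¬ Q ((∑ i, a i * z i) + w).toNat := by
  classical
  unfold bad
  rw [mem_filter, Fintype.mem_piFinset]
  constructor
  · rintro ⟨h1, h2⟩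
    exact ⟨fun i => abs_le.2 (mem_Icc.1 (h1 i)), h2⟩
  · rintro ⟨h1, h2⟩
    exact ⟨fun i => mem_Icc.2 (abs_le.1 (h1 i)), h2⟩

open Classical in
theorem card_bad (Q : ℕ → Prop) (d H R : ℕ) (hR : 1 ≤ R) (hH : 1 ≤ H) :
    (bad Q d H R).card ≤ (2 * H + 1) ^ (d + 2) * ((2 * R + 1) ^ d *
      ((Icc 1 ((d + 2) * H * R)).filter (fun n => ¬ Q n)).card) := by
  obtain ⟨E, hE⟩ : ∃ E : Finset ℤ, E = ((Icc 1 ((d + 2) * H * R)).filter (fun n => ¬ Q n)).image (fun n : ℕ => (n : ℤ)) :=
    ⟨_, rfl⟩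
  have hEc : E.card ≤ ((Icc 1 ((d + 2) * H * R)).filter (fun n => ¬ Q n)).card := by
    rw [hE]; exact card_image_le
  have hsub : bad Q d H R ⊆ ((Fintype.piFinset (fun _ : Option (Fin d) => Icc (-(H : ℤ)) H)) ×ˢ
      (Icc (-(H : ℤ)) H)).biUnion (fun aw => if aw.1 = 0 then ∅ else
        (Fintype.piFinset (fun _ : Option (Fin d) => Icc (-(R : ℤ)) R)).filter
          (fun z => (∑ i, aw.1 i * z i) + aw.2 ∈ E)) := by
    intro z hz
    rw [mem_bad] at hz
    obtain ⟨hz1, a, w, ha, hw, ha0, hpos, hQ⟩ := hz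
    rw [mem_biUnion]
    refine ⟨(a, w), ?_, ?_⟩
    · rw [mem_product, Fintype.mem_piFinset]
      exact ⟨fun i => mem_Icc.2 (abs_le.1 (ha i)), mem_Icc.2 (abs_le.1 hw)⟩
    · simp only
      rw [if_neg ha0, mem_filter, Fintype.mem_piFinset]
      refine ⟨fun i => mem_Icc.2 (abs_le.1 (hz1 i)), ?_⟩
      rw [hE, mem_image]
      refine ⟨((∑ i, a i * z i) + w).toNat, ?_, Int.toNat_of_nonneg hpos.le⟩
      rw [mem_filter, mem_Icc]
      refine ⟨⟨by omega, ?_⟩, hQ⟩
      have h1 : |(∑ i, a i * z i) + w| ≤ ((d + 2 : ℕ) : ℤ) * H * R := by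
        have h2 : |∑ i, a i * z i| ≤ ∑ _i : Option (Fin d), (H : ℤ) * R := by
          refine (abs_sum_le_sum_abs _ _).trans ?_
          apply sum_le_sum
          intro i _
          rw [abs_mul]
          exact mul_le_mul (ha i) (hz1 i) (abs_nonneg _) (by positivity)
        rw [sum_const, card_univ, Fintype.card_option, Fintype.card_fin, nsmul_eq_mul] at h2
        have h3 := abs_add_le (∑ i, a i * z i) w
        have h4 : (H : ℤ) * 1 ≤ (H : ℤ) * R := by
          apply mul_le_mul_of_nonneg_left _ (by positivity)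
          exact_mod_cast hR
        push_cast at h2 ⊢
        linarith
      have h5 := le_abs_self ((∑ i, a i * z i) + w)
      have h6 : (((∑ i, a i * z i) + w).toNat : ℤ) ≤ (((d + 2) * H * R : ℕ) : ℤ) := by
        rw [Int.toNat_of_nonneg hpos.le]
        push_cast at h1 ⊢
        linarith
      exact_mod_cast h6
  refine (card_le_card hsub).trans ?_
  refine (card_biUnion_le_card_mul _ _ (E.card * (2 * R + 1) ^ d) ?_).trans ?_
  · intro aw _
    split_ifs with h
    · simp
    · obtain ⟨i₀, hi₀⟩ := Function.ne_iff.1 h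
      have h1 := count_lin aw.1 i₀ hi₀ aw.2 R E
      rwa [Fintype.card_option, Fintype.card_fin, Nat.add_sub_cancel] at h1
  · rw [card_product, Fintype.card_piFinset, prod_const, Int.card_Icc, card_univ, Fintype.card_option,
      Fintype.card_fin]
    have e1 : ((H : ℤ) + 1 - -(H : ℤ)).toNat = 2 * H + 1 := by omega
    rw [e1]
    calc (2 * H + 1) ^ (d + 1) * (2 * H + 1) * (E.card * (2 * R + 1) ^ d)
        = (2 * H + 1) ^ (d + 2) * ((2 * R + 1) ^ d * E.card) := by ring
      _ ≤ _ := by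
          apply Nat.mul_le_mul_left
          exact Nat.mul_le_mul_left _ hEc

end Run7.h469.GA
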