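import Pool.Agent.Run7.h469.GA.Core

/-! The theorem on good simultaneous approximations of almost every real tuple. -/

set_option autoImplicit false

namespace Run7.h469.GA

open Finset MeasureTheory Filter
open scoped ENNReal

/-- the rational tuple `p / q` is a good approximation of `α` -/
def Approx (d W : ℕ) (α : Fin d → ℝ) (p : Fin d → ℤ) (q : ℕ) : Prop :=
  1 ≤ q ∧ ∀ i, |α i - p i / q| ≤ Real.log q ^ W / (q : ℝ) ^ (1 + 1 / (d : ℝ))

/-- `n` is a positive integer near a small linear combination of the `p i` and `q` -/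
def Near {d : ℕ} (W : ℕ) (p : Fin d → ℤ) (q n : ℕ) : Prop :=
  0 < n ∧ ∃ (u : Fin d → ℤ) (v w : ℤ), (u ≠ 0 ∨ v ≠ 0) ∧ (∀ i, (|u i| : ℝ) ≤ Real.log q ^ W) ∧
    (|v| : ℝ) ≤ Real.log q ^ W ∧ (|w| : ℝ) ≤ Real.log q ^ W ∧ (n : ℤ) = ∑ i, u i * p i + v * q + w

theorem rad_pow (d : ℕ) (hd : 1 ≤ d) (T P : ℝ) (hP : 0 < P) :
    (2 * (T / P ^ (1 + 1 / (d : ℝ)))) ^ d = (2 * T) ^ d / P ^ (d + 1) := by
  have hd0 : (d : ℝ) ≠ 0 := by exact_mod_cast (by omega : d ≠ 0)
  have e : (P ^ (1 + 1 / (d : ℝ))) ^ d = P ^ (d + 1) := by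
    rw [← Real.rpow_natCast (P ^ (1 + 1 / (d : ℝ))) d, ← Real.rpow_mul hP.le]
    have : (1 + 1 / (d : ℝ)) * d = ((d + 1 : ℕ) : ℝ) := by
      push_cast
      field_simp
    rw [this, Real.rpow_natCast]
  rw [← mul_div_assoc, div_pow, e]

theorem est (Q : ℕ → Prop) (hQ : Thin Q) (d W M : ℕ) (hd : 1 ≤ d) : ∃ C : ℝ, 0 ≤ C ∧ ∃ J : ℕ, ∀ j : ℕ, J ≤ j →
    ((bad Q d ((j + 1) ^ W) ((M + 1) * 2 ^ (j + 1))).card : ℝ) *
      (2 * (((j : ℝ) + 1) ^ W / ((2 : ℝ) ^ j) ^ (1 + 1 / (d : ℝ)))) ^ d ≤ C / ((j : ℝ) + 1) ^ 2 := by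
  classical
  obtain ⟨A, hA⟩ : ∃ A, A = W * (2 * d + 3) + 2 := ⟨_, rfl⟩
  obtain ⟨X₀, hX₀⟩ := hQ A
  obtain ⟨C, hC⟩ : ∃ C : ℝ, C = 3 ^ (d + 2) * 6 ^ d * ((M : ℝ) + 1) ^ (d + 1) * 2 * (d + 2) * 2 ^ A * 2 ^ d := ⟨_, rfl⟩
  refine ⟨C, by rw [hC]; positivity, X₀, fun j hj => ?_⟩
  obtain ⟨t, ht⟩ : ∃ t : ℝ, t = (j : ℝ) + 1 := ⟨_, rfl⟩
  obtain ⟨P, hP⟩ : ∃ P : ℝ, P = (2 : ℝ) ^ j := ⟨_, rfl⟩
  obtain ⟨T, hT⟩ : ∃ T : ℝ, T = t ^ W := ⟨_, rfl⟩
  have ht1 : 1 ≤ t := by rw [ht]; have : (0 : ℝ) ≤ j := Nat.cast_nonneg _; linarith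
  have ht0 : 0 < t := by linarith
  have hP1 : 1 ≤ P := by rw [hP]; exact one_le_pow₀ (by norm_num)
  have hP0 : 0 < P := by linarith
  have hT1 : 1 ≤ T := by rw [hT]; exact one_le_pow₀ ht1
  have hT0 : 0 < T := by linarith
  obtain ⟨H, hH⟩ : ∃ H, H = (j + 1) ^ W := ⟨_, rfl⟩
  obtain ⟨R, hR⟩ : ∃ R, R = (M + 1) * 2 ^ (j + 1) := ⟨_, rfl⟩
  have hHr : (H : ℝ) = T := by rw [hH, hT, ht]; push_cast; rfl
  have hRr : (R : ℝ) = 2 * (M + 1) * P := by rw [hR, hP]; push_cast; ring
  have hH1 : 1 ≤ H := by rw [hH]; exact Nat.one_le_pow _ _ (by omega)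
  have hR2 : 2 ^ (j + 1) ≤ R := by rw [hR]; exact Nat.le_mul_of_pos_left _ (by omega)
  have hR1 : 1 ≤ R := le_trans (Nat.one_le_pow _ _ (by norm_num)) hR2
  obtain ⟨Y, hY⟩ : ∃ Y, Y = (d + 2) * H * R := ⟨_, rfl⟩
  have hYR : R ≤ Y := by rw [hY]; exact Nat.le_mul_of_pos_left _ (by positivity)
  have hYX : X₀ ≤ Y := by
    have h1 : j < 2 ^ j := Nat.lt_two_pow_self
    have h2 : 2 ^ j ≤ 2 ^ (j + 1) := Nat.pow_le_pow_right (by norm_num) (by omega)
    omega
  have hYr : (Y : ℝ) = (d + 2) * T * (2 * (M + 1) * P) := by rw [hY]; push_cast; rw [hHr, hRr]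
  have h1 := hX₀ Y hYX
  have hlogY : t / 2 ≤ Real.log Y := by
    have h2 : (j + 1 : ℝ) * Real.log 2 ≤ Real.log Y := by
      have e : (j + 1 : ℝ) * Real.log 2 = Real.log (((2 ^ (j + 1) : ℕ)) : ℝ) := by
        push_cast
        rw [Real.log_pow]
        push_cast
        ring
      rw [e]
      apply Real.log_le_log
      · positivity
      · exact_mod_cast hR2.trans hYR
    have h3 := Real.log_two_gt_d9
    have h4 : t / 2 ≤ (j + 1 : ℝ) * Real.log 2 := by
      rw [← ht]
      nlinarith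
    linarith
  have hE : (((Icc 1 Y).filter (fun n => ¬ Q n)).card : ℝ) ≤ Y * 2 ^ A / t ^ A := by
    refine h1.trans ?_
    have h2 : (t / 2) ^ A ≤ Real.log Y ^ A := pow_le_pow_left₀ (by positivity) hlogY A
    calc (Y : ℝ) / Real.log Y ^ A ≤ Y / (t / 2) ^ A :=
          div_le_div_of_nonneg_left (Nat.cast_nonneg _) (by positivity) h2
      _ = Y * 2 ^ A / t ^ A := by rw [div_pow]; field_simp
  have hb := card_bad Q d H R hR1 hH1
  rw [← hY] at hb
  have hb' : ((bad Q d H R).card : ℝ) ≤ (3 * T) ^ (d + 2) * ((3 * (2 * (M + 1) * P)) ^ d * (Y * 2 ^ A / t ^ A)) := by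
    have h2 : ((bad Q d H R).card : ℝ) ≤ (((2 * H + 1) ^ (d + 2) * ((2 * R + 1) ^ d *
      ((Icc 1 Y).filter (fun n => ¬ Q n)).card) : ℕ) : ℝ) := by exact_mod_cast hb
    refine h2.trans ?_
    push_cast
    have h3 : (1 : ℝ) ≤ H := by exact_mod_cast hH1
    have h4 : (1 : ℝ) ≤ R := by exact_mod_cast hR1
    apply mul_le_mul
    · apply pow_le_pow_left₀ (by positivity)
      rw [← hHr]
      linarith
    · apply mul_le_mul _ hE (Nat.cast_nonneg _) (by positivity)
      apply pow_le_pow_left₀ (by positivity)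
      rw [← hRr]
      linarith
    · positivity
    · positivity
  rw [← hH, ← hR, ← ht, ← hT, ← hP, rad_pow d hd T P hP0]
  have h5 : ((bad Q d H R).card : ℝ) * ((2 * T) ^ d / P ^ (d + 1)) ≤
      (3 * T) ^ (d + 2) * ((3 * (2 * (M + 1) * P)) ^ d * (Y * 2 ^ A / t ^ A)) * ((2 * T) ^ d / P ^ (d + 1)) :=
    mul_le_mul_of_nonneg_right hb' (by positivity)
  refine h5.trans (le_of_eq ?_)
  have hA' : t ^ A = T ^ (2 * d + 3) * t ^ 2 := by
    rw [hA, pow_add, pow_mul, hT]
  rw [hA', hYr, hC]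
  simp only [mul_pow]
  have e1 : T ^ (2 * d + 3) = T ^ (d + 2) * T * T ^ d := by ring
  have e2 : (6 : ℝ) ^ d = 3 ^ d * 2 ^ d := by rw [← mul_pow]; norm_num
  rw [e1, e2]
  field_simp
  ring

theorem main (Q : ℕ → Prop) (hQ : Thin Q) (d W : ℕ) (hd : 1 ≤ d) : ∀ᵐ α : Fin d → ℝ,
    {z : (Fin d → ℤ) × ℕ | Approx d W α z.1 z.2 ∧ ∃ n : ℕ, Near W z.1 z.2 n ∧ ¬ Q n}.Finite := by
  classical
  have key : ∀ M : ℕ, ∀ᵐ α : Fin d → ℝ, (∀ i, |α i| ≤ M) →
      {z : (Fin d → ℤ) × ℕ | Approx d W α z.1 z.2 ∧ ∃ n : ℕ, Near W z.1 z.2 n ∧ ¬ Q n}.Finite := by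
    intro M
    obtain ⟨C, hC0, J, hJ⟩ := est Q hQ d W M hd
    obtain ⟨r, hr⟩ : ∃ r : ℕ → ℝ, r = fun j : ℕ => ((j : ℝ) + 1) ^ W / ((2 : ℝ) ^ j) ^ (1 + 1 / (d : ℝ)) := ⟨_, rfl⟩
    have hr0 : ∀ j, 0 ≤ r j := fun j => by rw [hr]; positivity
    obtain ⟨S, hS⟩ : ∃ S : ℕ → Set (Fin d → ℝ), S = fun j =>
      ⋃ z ∈ bad Q d ((j + 1) ^ W) ((M + 1) * 2 ^ (j + 1)),
        Metric.closedBall (fun i : Fin d => ((z (some i) : ℤ) : ℝ) / ((z none : ℤ) : ℝ)) (r j) := ⟨_, rfl⟩
    have hvol : ∀ j, J ≤ j → volume (S j) ≤ ENNReal.ofReal (C / ((j : ℝ) + 1) ^ 2) := by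
      intro j hj
      have h1 : volume (S j) ≤ ∑ z ∈ bad Q d ((j + 1) ^ W) ((M + 1) * 2 ^ (j + 1)),
          volume (Metric.closedBall (fun i : Fin d => ((z (some i) : ℤ) : ℝ) / ((z none : ℤ) : ℝ)) (r j)) := by
        rw [hS]
        exact measure_biUnion_finset_le _ _
      refine h1.trans ?_
      have h2 : ∀ z ∈ bad Q d ((j + 1) ^ W) ((M + 1) * 2 ^ (j + 1)),
          volume (Metric.closedBall (fun i : Fin d => ((z (some i) : ℤ) : ℝ) / ((z none : ℤ) : ℝ)) (r j)) =
            ENNReal.ofReal ((2 * r j) ^ d) := by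
        intro z _
        rw [Real.volume_pi_closedBall _ (hr0 j), Fintype.card_fin]
      rw [sum_congr rfl h2, sum_const, nsmul_eq_mul, ← ENNReal.ofReal_natCast, ← ENNReal.ofReal_mul (Nat.cast_nonneg _)]
      apply ENNReal.ofReal_le_ofReal
      have h3 := hJ j hj
      rw [hr]
      exact h3
    have hsum : ∑' j, volume (S (j + J)) ≠ ∞ := by
      have hs : Summable (fun j : ℕ => C / (((j + J : ℕ) : ℝ) + 1) ^ 2) := by
        have h1 : Summable (fun j : ℕ => 1 / ((j : ℝ)) ^ 2) := Real.summable_one_div_nat_pow.2 (by norm_num)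
        have h2 := (summable_nat_add_iff (J + 1)).2 h1
        refine (h2.mul_left C).congr (fun j => ?_)
        push_cast
        rw [mul_one_div, ← add_assoc]
      have h1 : ∑' j, volume (S (j + J)) ≤ ∑' j : ℕ, ENNReal.ofReal (C / (((j + J : ℕ) : ℝ) + 1) ^ 2) :=
        ENNReal.tsum_le_tsum (fun j => hvol (j + J) (by omega))
      rw [← ENNReal.ofReal_tsum_of_nonneg (fun j => by positivity) hs] at h1
      exact ne_top_of_le_ne_top ENNReal.ofReal_ne_top h1
    have hae := ae_eventually_notMem hsum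
    filter_upwards [hae] with α hα hM
    obtain ⟨J₁, hJ₁⟩ := eventually_atTop.1 hα
    -- large denominators
    have hlog : ∀ᶠ x : ℝ in atTop, Real.log x ^ W ≤ x := by
      have h1 : Tendsto (fun x : ℝ => Real.log x ^ W / x) atTop (nhds 0) := by
        have h2 := Real.isLittleO_pow_log_id_atTop (n := W)
        exact h2.tendsto_div_nhds_zero
      have h2 := h1.eventually (gt_mem_nhds (show (0 : ℝ) < 1 by norm_num))
      filter_upwards [h2, eventually_gt_atTop (0 : ℝ)] with x h3 h4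
      rw [div_lt_one h4] at h3
      exact h3.le
    obtain ⟨x₁, hx₁⟩ := eventually_atTop.1 hlog
    obtain ⟨q₁, hq₁⟩ := exists_nat_ge x₁
    obtain ⟨q₀, hq₀⟩ : ∃ q₀, q₀ = q₁ + 2 ^ (J₁ + J + 1) + 1 := ⟨_, rfl⟩
    have hsmall : ∀ z : (Fin d → ℤ) × ℕ, Approx d W α z.1 z.2 → (∃ n : ℕ, Near W z.1 z.2 n ∧ ¬ Q n) → z.2 ≤ q₀ := by
      rintro ⟨p, q⟩ ⟨hq1, hap⟩ ⟨n, ⟨hn0, u, v, w, huv, hu, hv, hw, hn⟩, hQn⟩
      simp only at hq1 hap hu hv hw hn ⊢
      by_contra hcon
      rw [not_le] at hcon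
      have hqq : q₁ ≤ q := by
        have : 1 ≤ 2 ^ (J₁ + J + 1) := Nat.one_le_pow _ _ (by norm_num)
        omega
      obtain ⟨j, hj⟩ : ∃ j, j = Nat.log 2 q := ⟨_, rfl⟩
      have hj1 : 2 ^ j ≤ q := by rw [hj]; exact Nat.pow_log_le_self 2 (by omega)
      have hj2 : q < 2 ^ (j + 1) := by rw [hj]; exact Nat.lt_pow_succ_log_self (by norm_num) q
      have hjJ : J₁ + J ≤ j := by
        by_contra h
        have : 2 ^ (j + 1) ≤ 2 ^ (J₁ + J + 1) := Nat.pow_le_pow_right (by norm_num) (by omega)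
        omega
      have hq0r : (0 : ℝ) < q := by exact_mod_cast (by omega : 0 < q)
      have hq1r : (1 : ℝ) ≤ q := by exact_mod_cast hq1
      have hlq0 : 0 ≤ Real.log q := Real.log_nonneg hq1r
      have hlq : Real.log q ≤ (j : ℝ) + 1 := by
        have h1 : Real.log q ≤ Real.log (((2 ^ (j + 1) : ℕ)) : ℝ) :=
          Real.log_le_log hq0r (by exact_mod_cast hj2.le)
        push_cast at h1
        rw [Real.log_pow] at h1
        have h2 := Real.log_two_lt_d9
        have h3 : (0 : ℝ) ≤ (j : ℝ) + 1 := by positivity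
        push_cast at h1
        nlinarith
      have hlqW : Real.log q ^ W ≤ ((j : ℝ) + 1) ^ W := pow_le_pow_left₀ hlq0 hlq W
      have hlqW' : Real.log q ^ W ≤ (((j + 1) ^ W : ℕ) : ℝ) := by push_cast; exact hlqW
      have hqd : (q : ℝ) ≤ (q : ℝ) ^ (1 + 1 / (d : ℝ)) := by
        conv_lhs => rw [← Real.rpow_one (q : ℝ)]
        apply Real.rpow_le_rpow_of_exponent_le hq1r
        have : (0 : ℝ) ≤ 1 / (d : ℝ) := by positivity
        linarith
      -- the point is in one of the boxes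
      have hmem : α ∈ S j := by
        rw [hS]
        simp only [Set.mem_iUnion]
        obtain ⟨z, hz⟩ : ∃ z : Option (Fin d) → ℤ, z = fun o => Option.casesOn o (q : ℤ) (fun i => p i) := ⟨_, rfl⟩
        have hz1 : z none = q := by rw [hz]
        have hz2 : ∀ i, z (some i) = p i := fun i => by rw [hz]
        refine ⟨z, ?_, ?_⟩
        · rw [mem_bad]
          constructor
          · intro o
            cases o with
            | none =>
              rw [hz1]
              have h1 : q ≤ (M + 1) * 2 ^ (j + 1) := hj2.le.trans (Nat.le_mul_of_pos_left _ (by omega))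
              rw [abs_of_nonneg (by positivity)]
              exact_mod_cast h1
            | some i =>
              rw [hz2]
              have h1 := hap i
              have h2 : Real.log q ^ W / (q : ℝ) ^ (1 + 1 / (d : ℝ)) ≤ 1 := by
                rw [div_le_one (by positivity)]
                refine le_trans (hx₁ q ?_) hqd
                refine hq₁.trans ?_
                exact_mod_cast hqq
              have h3 : |(p i : ℝ) / q| ≤ M + 1 := by
                have h4 : |(p i : ℝ) / q| ≤ |α i| + |α i - p i / q| := by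
                  have := abs_sub_abs_le_abs_sub ((p i : ℝ) / q) (α i)
                  rw [abs_sub_comm] at this
                  linarith
                have h5 := hM i
                linarith
              rw [abs_div, abs_of_pos hq0r, div_le_iff₀ hq0r] at h3
              have h4 : |(p i : ℝ)| ≤ (((M + 1) * 2 ^ (j + 1) : ℕ) : ℝ) := by
                push_cast
                refine h3.trans ?_
                apply mul_le_mul_of_nonneg_left _ (by positivity)
                exact_mod_cast hj2.le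
              exact_mod_cast h4
          · refine ⟨fun o => Option.casesOn o v (fun i => u i), w, ?_, ?_, ?_, ?_, ?_⟩
            · intro o
              cases o with
              | none => exact_mod_cast hv.trans hlqW'
              | some i => exact_mod_cast (hu i).trans hlqW'
            · exact_mod_cast hw.trans hlqW'
            · intro h
              rcases huv with h1 | h1
              · exact h1 (funext fun i => congrFun h (some i))
              · exact h1 (congrFun h none)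
            · rw [Fintype.sum_option]
              simp only [hz1, hz2]
              have : (0 : ℤ) < n := by exact_mod_cast hn0
              rw [hn] at this
              linarith
            · rw [Fintype.sum_option]
              simp only [hz1, hz2]
              have e : v * (q : ℤ) + ∑ i, u i * p i + w = n := by rw [hn]; ring
              rw [e, Int.toNat_natCast]
              exact hQn
        · rw [Metric.mem_closedBall, dist_pi_le_iff (hr0 j)]
          intro i
          rw [Real.dist_eq, hz1, hz2]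
          push_cast
          refine (hap i).trans ?_
          rw [hr]
          simp only
          apply div_le_div₀ (by positivity) hlqW (by positivity)
          apply Real.rpow_le_rpow (by positivity) _ (by positivity)
          exact_mod_cast hj1
      have h1 := hJ₁ (j - J) (by omega)
      rw [Nat.sub_add_cancel (by omega)] at h1
      exact h1 hmem
    -- finiteness
    obtain ⟨B, hB⟩ : ∃ B : ℕ, (q₀ : ℝ) * (M + Real.log q₀ ^ W) ≤ B := exists_nat_ge _
    apply Set.Finite.subset (((Fintype.piFinset (fun _ : Fin d => Icc (-(B : ℤ)) B)) ×ˢ (range (q₀ + 1))).finite_toSet)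
    rintro ⟨p, q⟩ ⟨h1, h2⟩
    have hq := hsmall _ h1 h2
    obtain ⟨hq1, hap⟩ := h1
    simp only at hq hq1 hap
    rw [mem_coe, mem_product, Fintype.mem_piFinset, mem_range]
    refine ⟨fun i => ?_, by simp only; omega⟩
    rw [mem_Icc, ← abs_le]
    have hq0r : (0 : ℝ) < q := by exact_mod_cast (by omega : 0 < q)
    have hq1r : (1 : ℝ) ≤ q := by exact_mod_cast hq1
    have hlq0 : 0 ≤ Real.log q := Real.log_nonneg hq1r
    have h3 := hap i
    have h4 : Real.log q ^ W / (q : ℝ) ^ (1 + 1 / (d : ℝ)) ≤ Real.log q₀ ^ W := by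
      have h5 : (1 : ℝ) ≤ (q : ℝ) ^ (1 + 1 / (d : ℝ)) := Real.one_le_rpow hq1r (by positivity)
      refine (div_le_self (by positivity) h5).trans ?_
      apply pow_le_pow_left₀ hlq0
      exact Real.log_le_log hq0r (by exact_mod_cast hq)
    have h5 : |(p i : ℝ) / q| ≤ M + Real.log q₀ ^ W := by
      have h6 := abs_sub_abs_le_abs_sub ((p i : ℝ) / q) (α i)
      rw [abs_sub_comm] at h6
      have h7 := hM i
      linarith
    rw [abs_div, abs_of_pos hq0r, div_le_iff₀ hq0r] at h5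
    have h6 : |(p i : ℝ)| ≤ (B : ℝ) := by
      refine h5.trans (le_trans ?_ hB)
      rw [mul_comm]
      apply mul_le_mul_of_nonneg_right (by exact_mod_cast hq)
      have h7 : 0 ≤ Real.log q₀ ^ W := by
        apply pow_nonneg
        apply Real.log_nonneg
        exact hq1r.trans (by exact_mod_cast hq)
      positivity
    exact_mod_cast h6
  have hall := ae_all_iff.2 key
  filter_upwards [hall] with α hα
  obtain ⟨M, hM⟩ := exists_nat_ge ‖α‖
  refine hα M (fun i => ?_)
  have h1 := norm_le_pi_norm α i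
  rw [Real.norm_eq_abs] at h1
  exact h1.trans hM

end Run7.h469.GA
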